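import Mathlib

/-! Every interval graph is a unit max-tolerance graph. -/

namespace Pool.Agent.Results.MP_0f9430_co.IntervalUnitMax

/-- Interval graphs: intersection graphs of families of nonempty intervals (of any kind) of the
real line. -/
def IsInterval {V : Type*} (G : SimpleGraph V) : Prop :=
  ∃ I : V → Set ℝ, (∀ v, (I v).Nonempty ∧ (I v).OrdConnected) ∧
    ∀ u v, u ≠ v → (G.Adj u v ↔ (I u ∩ I v).Nonempty)

/-- The length of the intersection of the intervals `[L, R]` and `[L', R']`. -/
noncomputable def overlap (L R L' R' : ℝ) : ℝ := max 0 (min R R' - max L L')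

/-- Unit max-tolerance graphs: there are closed intervals `[L v, R v]`, all of the same length,
and tolerances `t v > 0` such that distinct `u, v` are adjacent exactly when the length of the
intersection of their intervals is at least `max (t u) (t v)`. -/
def IsUnitMaxTolerance {V : Type*} (G : SimpleGraph V) : Prop :=
  ∃ L R t : V → ℝ, (∀ v, L v ≤ R v) ∧ (∀ v, 0 < t v) ∧ (∀ u v, R u - L u = R v - L v) ∧
    ∀ u v, u ≠ v → (G.Adj u v ↔ max (t u) (t v) ≤ overlap (L u) (R u) (L v) (R v))

/-- an interval graph is represented by closed bounded intervals -/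
theorem closed_rep {V : Type*} [Fintype V] (G : SimpleGraph V) (h : IsInterval G) :
    ∃ L R : V → ℝ, (∀ v, L v ≤ R v) ∧ ∀ u v, u ≠ v → (G.Adj u v ↔ L u ≤ R v ∧ L v ≤ R u) := by
  classical
  obtain ⟨I, hI, hadj⟩ := h
  have hp : ∀ v u, ∃ x, x ∈ I v ∧ (G.Adj v u → x ∈ I u) := by
    intro v u
    by_cases hvu : G.Adj v u
    · obtain ⟨x, hx⟩ := (hadj v u hvu.ne).mp hvu
      exact ⟨x, hx.1, fun _ => hx.2⟩
    · obtain ⟨x, hx⟩ := (hI v).1
      exact ⟨x, hx, fun h => absurd h hvu⟩
  choose p hp using hp
  let P : V → Finset ℝ := fun v => (Finset.univ.image fun u => p v u) ∪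
    ((Finset.univ.filter fun u => G.Adj u v).image fun u => p u v)
  have hPI : ∀ v, ∀ x ∈ P v, x ∈ I v := by
    intro v x hx
    simp only [P, Finset.mem_union, Finset.mem_image, Finset.mem_filter, Finset.mem_univ,
      true_and] at hx
    rcases hx with ⟨u, rfl⟩ | ⟨u, hu, rfl⟩
    · exact (hp v u).1
    · exact (hp u v).2 hu
  have hne : ∀ v, (P v).Nonempty := fun v => ⟨p v v, by simp [P]⟩
  refine ⟨fun v => (P v).min' (hne v), fun v => (P v).max' (hne v),
    fun v => Finset.min'_le_max' _ _, fun u v huv => ?_⟩
  have hIcc : ∀ v x, (P v).min' (hne v) ≤ x → x ≤ (P v).max' (hne v) → x ∈ I v := fun v x h1 h2 =>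
    (hI v).2.out (hPI v _ (Finset.min'_mem _ _)) (hPI v _ (Finset.max'_mem _ _)) ⟨h1, h2⟩
  constructor
  · intro h
    have m1 : p u v ∈ P u := by simp [P]
    have m2 : p u v ∈ P v := by
      simp only [P, Finset.mem_union, Finset.mem_image, Finset.mem_filter, Finset.mem_univ,
        true_and]
      exact Or.inr ⟨u, h, rfl⟩
    exact ⟨(Finset.min'_le _ _ m1).trans (Finset.le_max' _ _ m2),
      (Finset.min'_le _ _ m2).trans (Finset.le_max' _ _ m1)⟩
  · rintro ⟨h1, h2⟩
    rw [hadj u v huv]
    refine ⟨max ((P u).min' (hne u)) ((P v).min' (hne v)), hIcc u _ (le_max_left _ _) ?_,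
      hIcc v _ (le_max_right _ _) ?_⟩
    · exact max_le (Finset.min'_le_max' _ _) h2
    · exact max_le h1 (Finset.min'_le_max' _ _)

/-- a radius representation gives a unit max-tolerance representation -/
theorem of_radius {V : Type*} [Fintype V] (G : SimpleGraph V) (x s : V → ℝ)
    (h : ∀ u v, u ≠ v → (G.Adj u v ↔ |x u - x v| ≤ min (s u) (s v))) : IsUnitMaxTolerance G := by
  classical
  obtain ⟨M, hM0, hM⟩ : ∃ M : ℝ, 0 ≤ M ∧ ∀ v, s v < M := by
    refine ⟨∑ v, |s v| + 1, by positivity, fun v => ?_⟩
    have : |s v| ≤ ∑ v, |s v| :=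
      Finset.single_le_sum (f := fun v => |s v|) (fun i _ => abs_nonneg _) (Finset.mem_univ v)
    have := le_abs_self (s v)
    linarith
  refine ⟨x, fun v => x v + M, fun v => M - s v, fun v => by linarith, fun v => by
    have := hM v; linarith, fun u v => by ring, fun u v huv => ?_⟩
  rw [h u v huv]
  have hu := hM u
  have hv := hM v
  unfold overlap
  rw [le_max_iff]
  have e : min (x u + M) (x v + M) - max (x u) (x v) = M - |x u - x v| := by
    rcases le_total (x u) (x v) with h | h
    · rw [min_eq_left (by linarith), max_eq_right h, abs_of_nonpos (by linarith)]; ring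
    · rw [min_eq_right (by linarith), max_eq_left h, abs_of_nonneg (by linarith)]; ring
  rw [e]
  have h0 : ¬ max (M - s u) (M - s v) ≤ 0 := by
    rw [max_le_iff]
    rintro ⟨h1, -⟩
    linarith
  simp only [h0, false_or, max_le_iff, le_min_iff]
  constructor <;> rintro ⟨h1, h2⟩ <;> constructor <;> linarith

/-- Every finite interval graph is a unit max-tolerance graph. -/
theorem result (V : Type*) [Finite V] (G : SimpleGraph V) (h : IsInterval G) :
    IsUnitMaxTolerance G := by
  classical
  have := Fintype.ofFinite V
  obtain ⟨L, R, hLR, hadj⟩ := closed_rep G h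
  -- order the vertices by left endpoints
  obtain ⟨g, hg⟩ : ∃ g : Fin (Fintype.card V) ≃ V, Monotone (fun i => L (g i)) := by
    let e := (Fintype.equivFin V).symm
    refine ⟨(Tuple.sort (L ∘ e)).trans e, ?_⟩
    exact Tuple.monotone_sort (L ∘ e)
  have conv : ∀ i j k, i < j → j < k → G.Adj (g i) (g k) → G.Adj (g i) (g j) := by
    intro i j k hij hjk h
    have hik := (hadj _ _ h.ne).mp h
    rw [hadj _ _ (fun e => hij.ne (g.injective e))]
    exact ⟨(hg hij.le).trans (hLR _), (hg hjk.le).trans hik.2⟩
  let x : Fin (Fintype.card V) → ℝ := fun i => 3 ^ (i : ℕ)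
  have hx : ∀ i j, i < j → 3 * x i ≤ x j := by
    intro i j hij
    have h1 : (i : ℕ) + 1 ≤ j := hij
    calc 3 * x i = 3 ^ ((i : ℕ) + 1) := by simp only [x]; ring
      _ ≤ x j := pow_le_pow_right₀ (by norm_num) h1
  have hx0 : ∀ i, 0 < x i := fun i => by positivity
  let N : Fin (Fintype.card V) → Finset (Fin (Fintype.card V)) := fun i =>
    Finset.univ.filter fun j => i < j ∧ G.Adj (g i) (g j)
  let s : Fin (Fintype.card V) → ℝ := fun i =>
    if h : (N i).Nonempty then (N i).sup' h (fun j => x j - x i) else x i
  have hmain : ∀ i j, i < j → (G.Adj (g i) (g j) ↔ x j - x i ≤ min (s i) (s j)) := by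
    intro i j hij
    constructor
    · intro h
      have hj : j ∈ N i := by simp [N, hij, h]
      refine le_min ?_ ?_
      · have hne : (N i).Nonempty := ⟨j, hj⟩
        simp only [s, hne, dif_pos]
        exact Finset.le_sup' (fun j => x j - x i) hj
      · by_cases hne : (N j).Nonempty
        · simp only [s, hne, dif_pos]
          obtain ⟨k, hk⟩ := hne
          have h1 : x k - x j ≤ (N j).sup' ⟨k, hk⟩ (fun k => x k - x j) :=
            Finset.le_sup' (fun k => x k - x j) hk
          have hjk : j < k := by
            have := hk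
            simp only [N, Finset.mem_filter, Finset.mem_univ, true_and] at this
            exact this.1
          have h2 := hx j k hjk
          have h3 := hx0 i
          have h4 := hx0 j
          linarith
        · simp only [s, hne, dif_neg, not_false_eq_true]
          have h3 := hx0 i
          linarith
    · intro h
      have h1 := h.trans (min_le_left _ _)
      by_cases hne : (N i).Nonempty
      · simp only [s, hne, dif_pos] at h1
        obtain ⟨k, hk, hk2⟩ := Finset.exists_mem_eq_sup' hne (fun j => x j - x i)
        rw [hk2] at h1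
        simp only [N, Finset.mem_filter, Finset.mem_univ, true_and] at hk
        have hjk : j ≤ k := by
          by_contra hlt
          push Not at hlt
          have := hx k j hlt
          have := hx0 k
          linarith
        rcases hjk.lt_or_eq with hlt | rfl
        · exact conv i j k hij hlt hk.2
        · exact hk.2
      · simp only [s, hne, dif_neg, not_false_eq_true] at h1
        have := hx i j hij
        have := hx0 i
        linarith
  refine of_radius G (fun v => x (g.symm v)) (fun v => s (g.symm v)) (fun u v huv => ?_)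
  have hne : g.symm u ≠ g.symm v := fun e => huv (g.symm.injective e)
  rcases lt_or_gt_of_ne hne with hlt | hlt
  · have h1 := hmain _ _ hlt
    rw [g.apply_symm_apply, g.apply_symm_apply] at h1
    have h2 := hx _ _ hlt
    have h3 := hx0 (g.symm u)
    rw [h1, abs_of_nonpos (by linarith), neg_sub]
  · have h1 := hmain _ _ hlt
    rw [g.apply_symm_apply, g.apply_symm_apply] at h1
    have h2 := hx _ _ hlt
    have h3 := hx0 (g.symm v)
    rw [G.adj_comm, h1, abs_of_nonneg (by linarith), min_comm]

end Pool.Agent.Results.MP_0f9430_co.IntervalUnitMax
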